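import Pool.Agent.H518Z.Hol.Cases

set_option autoImplicit false

open Pool.Agent.H518Z.Hol

universe u v w

/-- Property (H) holds for James's space, and for every infinite-dimensional real normed space
that is isomorphic to a Hilbert space, or is complete with an unconditional basis, or is isomorphic
to James's space, or is complete with a Schauder basis, or is decomposable, or carries a bounded
chain of projections. -/
theorem Pool.Agent.Results.MP_93c42a_an.AHolderBalls.result : PropH James ∧
    ∀ (X : Type u) [NormedAddCommGroup X] [NormedSpace ℝ X], ¬ FiniteDimensional ℝ X →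
      ((∃ (H : Type v) (_ : NormedAddCommGroup H) (_ : InnerProductSpace ℝ H),
          CompleteSpace H ∧ Nonempty (X ≃L[ℝ] H)) ∨
        (CompleteSpace X ∧ ∃ β : Type w, Nonempty (UnconditionalSchauderBasis β ℝ X)) ∨
        Nonempty (X ≃L[ℝ] James) ∨
        (CompleteSpace X ∧ Nonempty (SchauderBasis ℝ X)) ∨
        Decomposable X ∨ HasChain X) → PropH X :=
  main
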